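import Mathlib

set_option autoImplicit false

namespace Pool.Agent.Results.MP_e8eed4_co.AllColourable
open Finset Classical

theorem sdr {ι V : Type} [Countable ι] (X : ι → Set V) (h : ∀ i, (X i).Infinite) :
    ∃ u : ι → V, Function.Injective u ∧ ∀ i, u i ∈ X i := by
  obtain ⟨e, he⟩ := exists_injective_nat ι
  choose t h1 h2 using fun i => (h i).exists_subset_card_eq (e i + 1)
  obtain ⟨u, a, b⟩ := (Finset.all_card_le_biUnion_card_iff_exists_injective t).1 fun s => by
    rcases s.eq_empty_or_nonempty with rfl | hs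
    · simp
    obtain ⟨i, hi, hm⟩ := exists_max_image s e hs
    refine le_trans ?_ (card_le_card (subset_biUnion_of_mem t hi))
    rw [h2, ← card_range (e i + 1)]
    exact card_le_card_of_injOn e (fun j hj => by simpa [Nat.lt_succ_iff] using hm j hj) he.injOn
  exact ⟨u, a, fun i => h1 i (b i)⟩

theorem fin {V : Type} (w : V → V → ℕ) (hs : ∀ u v, w u v = w v u) (h0 : ∀ v, w v v = 0)
    (f : V → Fin 3) (U : Finset V) : ∃ φ : V → Fin 3, (∀ v, φ v ≠ f v) ∧ ∀ v ∈ U,
      ∑ u ∈ U, (if φ u = φ v then w v u else 0) ≤ ∑ u ∈ U, (if φ u ≠ φ v then w v u else 0) := by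
  let M : (V → Fin 3) → ℕ := fun φ => ∑ x ∈ U, ∑ y ∈ U, if φ y = φ x then w x y else 0
  obtain ⟨φ, h1, h2⟩ := WellFounded.has_min (InvImage.wf M wellFounded_lt) {φ | ∀ v, φ v ≠ f v}
    ⟨fun v => f v + 1, fun v => by simp⟩
  refine ⟨φ, h1, fun v hv => ?_⟩
  obtain ⟨b, b1, b2⟩ : ∃ b, b ≠ f v ∧ b ≠ φ v := by
    generalize f v = x, φ v = y; revert x y; decide
  have h3 := not_lt.1 (h2 (Function.update φ v b) fun u => by
    by_cases c : u = v
    · rw [c, Function.update_self]; exact b1
    · rw [Function.update_of_ne c]; exact h1 u)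
  have key : ∀ ψ : V → Fin 3, M ψ = 2 * ∑ u ∈ U.erase v, (if ψ u = ψ v then w v u else 0) +
      ∑ x ∈ U.erase v, ∑ y ∈ U.erase v, if ψ y = ψ x then w x y else 0 := fun ψ => by
    simp only [M, ← add_sum_erase U _ hv, h0, ite_self, zero_add, sum_add_distrib, two_mul,
      add_assoc, hs _ v, eq_comm (a := ψ v)]
  have e1 : ∀ u ∈ U.erase v, Function.update φ v b u = φ u := fun u hu =>
    Function.update_of_ne (ne_of_mem_erase hu) _ _
  rw [key, key, sum_congr rfl (g := fun x => ∑ y ∈ U.erase v, if φ y = φ x then w x y else 0)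
    (f := fun x => ∑ y ∈ U.erase v, if Function.update φ v b y = Function.update φ v b x
      then w x y else 0) fun x hx => sum_congr rfl fun y hy => by rw [e1 x hx, e1 y hy]] at h3
  have h4 : ∑ u ∈ U.erase v, (if Function.update φ v b u = Function.update φ v b v then w v u
      else 0) ≤ ∑ u ∈ U.erase v, (if φ u ≠ φ v then w v u else 0) := sum_le_sum fun u hu => by
    rw [e1 u hu, Function.update_self]
    split_ifs with c1 c2
    · exact le_rfl
    · exact absurd (c1.symm.trans (not_not.1 c2)) b2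
    · exact Nat.zero_le _
    · exact le_rfl
  simp only [← add_sum_erase U _ hv, h0, ite_self, zero_add]
  omega

theorem result (V : Type) [Countable V] (w : V → V → ℕ) (hs : ∀ u v, w u v = w v u)
    (h0 : ∀ v, w v v = 0) : ∃ φ : V → Fin 3, ∀ v,
      ∑' u, (if φ u = φ v then (w v u : ENNReal) else 0) ≤
        ∑' u, (if φ u ≠ φ v then (w v u : ENNReal) else 0) := by
  let N : V → Set V := fun v => {u | w v u ≠ 0}
  obtain ⟨u, u1, u2⟩ := sdr (ι := {v // (N v).Infinite} × Fin 3 × ℕ) (fun i => N i.1) fun i => i.1.2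
  let f : V → Fin 3 := Function.extend u (fun i => i.2.1) 0
  let C : V → Set (V → Fin 3) := fun v => {φ | φ v ≠ f v ∧ ∀ h : (N v).Finite,
    ∑ u ∈ h.toFinset, (if φ u = φ v then w v u else 0) ≤
      ∑ u ∈ h.toFinset, (if φ u ≠ φ v then w v u else 0)}
  obtain ⟨φ, -, hφ⟩ := isCompact_univ.inter_iInter_nonempty C (fun v => by
    refine IsClosed.inter ((isClosed_discrete {c | c ≠ f v}).preimage (f := fun φ : V → Fin 3 => φ v)
      (continuous_apply v)) ?_
    show IsClosed {φ : V → Fin 3 | ∀ h : (N v).Finite, _}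
    simp only [Set.ofPred_forall]
    refine isClosed_iInter fun h => isClosed_le ?_ ?_ <;> refine continuous_finsetSum _ fun u _ => ?_
    · exact (continuous_of_discreteTopology (f := fun p : Fin 3 × Fin 3 =>
        if p.1 = p.2 then w v u else 0)).comp (f := fun φ : V → Fin 3 => (φ u, φ v)) (by fun_prop)
    · exact (continuous_of_discreteTopology (f := fun p : Fin 3 × Fin 3 =>
        if p.1 ≠ p.2 then w v u else 0)).comp (f := fun φ : V → Fin 3 => (φ u, φ v)) (by fun_prop))
    fun F => by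
      obtain ⟨φ, a, b⟩ := fin w hs h0 f
        (F ∪ F.biUnion fun v => if h : (N v).Finite then h.toFinset else ∅)
      refine ⟨φ, trivial, Set.mem_iInter₂.2 fun v hv => ⟨a v, fun h => ?_⟩⟩
      have := b v (mem_union_left _ hv)
      have sub : h.toFinset ⊆ F ∪ F.biUnion fun v => if h : (N v).Finite then h.toFinset else ∅ :=
        fun x hx => mem_union_right _ (mem_biUnion.2 ⟨v, hv, by rwa [dif_pos h]⟩)
      rwa [← sum_subset sub fun x _ hx => by simp_all [N],
        ← sum_subset sub fun x _ hx => by simp_all [N]] at this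
  replace hφ := Set.mem_iInter.1 hφ
  refine ⟨φ, fun v => ?_⟩
  by_cases h : (N v).Finite
  · rw [tsum_eq_sum (s := h.toFinset) fun x hx => by simp_all [N],
      tsum_eq_sum (s := h.toFinset) fun x hx => by simp_all [N]]
    exact_mod_cast (hφ v).2 h
  · refine le_top.trans (le_of_eq (Eq.symm ?_))
    refine eq_top_iff.2 (le_trans ?_ (ENNReal.tsum_comp_le_tsum_of_injective
      (f := fun k : ℕ => u (⟨v, h⟩, φ v, k)) (fun a b c => by simpa using u1 c) _))
    rw [← ENNReal.tsum_const_eq_top_of_ne_zero (α := ℕ) one_ne_zero]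
    refine ENNReal.tsum_le_tsum fun k => ?_
    have h1 := (hφ (u (⟨v, h⟩, φ v, k))).1
    rw [show f (u _) = φ v from u1.extend_apply _ _ _] at h1
    rw [if_pos h1]
    exact_mod_cast Nat.one_le_iff_ne_zero.2 (u2 (⟨v, h⟩, φ v, k))

end Pool.Agent.Results.MP_e8eed4_co.AllColourable
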